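import Mathlib

/-!
# A special Hadamard operator without a regular choice of the `p`-to-`2` constant

The unitary involution of `L²(ℝ)` that exchanges the Gabor basis functions
`e^{2πiky} 1_{(m,m+1]}(y)` and `e^{2πimy} 1_{(k,k+1]}(y)` is a special `1`-Hadamard operator and
fixes the indicator function of `(0,1]`.  Hence no admissible constant exceeds `1`, and a strictly
decreasing choice with limit `1` at `p = 2` is impossible.
-/

set_option autoImplicit false

open MeasureTheory Set Filter Topology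
open scoped ENNReal ComplexConjugate InnerProductSpace

namespace Pool.Agent.Results.MP_977787_an.RegularChoiceFails

section Defs

variable {α : Type*} [MeasurableSpace α] {μ : Measure α}

/-- The Hilbert space `L²(μ)` of complex-valued functions. -/
abbrev L2 (μ : Measure α) : Type _ := Lp ℂ 2 μ

/-- The bounded linear operators on `L²(μ)`. -/
abbrev Op (μ : Measure α) : Type _ := L2 μ →L[ℂ] L2 μ

/-- The value `A f`, an element of `L²(μ)`. -/
noncomputable abbrev app (A : Op μ) (f : L2 μ) : L2 μ := A f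

/-- The underlying function (defined almost everywhere) of an element of `L²(μ)`. -/
noncomputable abbrev fn (f : L2 μ) : α → ℂ := f

/-- `B` is the Hilbert space adjoint `A*` of `A`: `⟨A f, g⟩ = ⟨f, B g⟩` for all `f, g`. -/
def IsAdjoint (A B : Op μ) : Prop :=
  ∀ f g : L2 μ, ∫ x, fn (app A f) x * conj (fn g x) ∂μ = ∫ x, fn f x * conj (fn (app B g) x) ∂μ

/-- `A` is bounded `L¹ → L^∞` with norm at most `M`: `‖A f‖_∞ ≤ M ‖f‖₁` for `f ∈ L¹ ∩ L²`. -/
def BoundedOneInfty (A : Op μ) (M : ℝ) : Prop :=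
  ∀ f : L2 μ, Integrable (fn f) μ → ∀ᵐ x ∂μ, ‖fn (app A f) x‖ ≤ M * ∫ y, ‖fn f y‖ ∂μ

/-- Special `k`-Hadamard operators: `‖A‖_{1→∞} ≤ 1`, `A` is bounded and invertible on `L²` with
`A* = k A⁻¹` (that is `A A* = A* A = k`), and `A*` is bounded `L¹ → L^∞`. -/
structure IsSpecialHadamard (k : ℝ) (A : Op μ) : Prop where
  pos : 0 < k
  bound : BoundedOneInfty A 1
  adjoint : ∃ B : Op μ, IsAdjoint A B ∧
    (∀ f : L2 μ, fn (app A (app B f)) =ᵐ[μ] fun x => k * fn f x) ∧
    (∀ f : L2 μ, fn (app B (app A f)) =ᵐ[μ] fun x => k * fn f x) ∧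
    ∃ M, BoundedOneInfty B M

/-- `f ∈ L^p`, for a real exponent `p`. -/
def InLp (p : ℝ) (f : L2 μ) : Prop := MemLp (fn f) (ENNReal.ofReal p) μ

/-- The `L^p` norm, for a real exponent `p`. -/
noncomputable def pnorm (p : ℝ) (f : L2 μ) : ℝ := (eLpNorm (fn f) (ENNReal.ofReal p) μ).toReal

/-- `C` is admissible for `(A, p)`: `C > 0` and
`(‖f‖_p ‖A f‖_p) / (‖f‖_2 ‖A f‖_2) ≥ C` for all nonzero `f ∈ L²` with `f, A f ∈ L^p`. -/
def Admissible (A : Op μ) (p C : ℝ) : Prop :=
  0 < C ∧ ∀ f : L2 μ, f ≠ 0 → InLp p f → InLp p (app A f) →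
    C ≤ (pnorm p f * pnorm p (app A f)) / (pnorm 2 f * pnorm 2 (app A f))

/-- There is a choice of admissible constants with all the properties required in the question. -/
def HasRegularChoice (A : Op μ) : Prop :=
  ∃ σ : ℝ, 0 < σ ∧ σ ≤ 1 ∧ ∃ C : ℝ → ℝ,
    (∀ p ∈ Ioc (2 - σ) 2, Admissible A p (C p)) ∧
    C 2 = 1 ∧ Tendsto C (𝓝[<] 2) (𝓝 1) ∧
    DifferentiableOn ℝ C (Ioo (2 - σ) 2) ∧ StrictAntiOn C (Ioo (2 - σ) 2)

end Defs

/-! ### The orthonormal basis -/

/-- The functions `e^{2πiky} 1_{(m,m+1]}(y)`. -/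
noncomputable def e (i : ℤ × ℤ) : ℝ → ℂ :=
  indicator (Ioc (i.1 : ℝ) (i.1 + 1)) (fun y => Complex.exp (2 * Real.pi * Complex.I * i.2 * y))

lemma norm_exp (k : ℤ) (y : ℝ) : ‖Complex.exp (2 * Real.pi * Complex.I * k * y)‖ = 1 := by
  have : (2 * Real.pi * Complex.I * k * y : ℂ) = ((2 * Real.pi * k * y : ℝ) : ℂ) * Complex.I := by
    push_cast; ring
  rw [this, Complex.norm_exp_ofReal_mul_I]

lemma norm_e_le (i : ℤ × ℤ) (y : ℝ) :
    ‖e i y‖ ≤ indicator (Ioc (i.1 : ℝ) (i.1 + 1)) (fun _ => (1 : ℝ)) y := by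
  unfold e
  by_cases h : y ∈ Ioc (i.1 : ℝ) (i.1 + 1)
  · rw [indicator_of_mem h, indicator_of_mem h, norm_exp]
  · rw [indicator_of_notMem h, indicator_of_notMem h, norm_zero]

lemma meas_e (i : ℤ × ℤ) : Measurable (e i) := by
  unfold e
  apply Measurable.indicator _ measurableSet_Ioc
  fun_prop

lemma memLp_e (i : ℤ × ℤ) (p : ℝ≥0∞) : MemLp (e i) p (volume : Measure ℝ) := by
  have h : MemLp (indicator (Ioc (i.1 : ℝ) (i.1 + 1)) (fun _ => (1 : ℝ))) p
      (volume : Measure ℝ) := by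
    apply memLp_indicator_const _ measurableSet_Ioc
    right
    simp
  apply h.mono (meas_e i).aestronglyMeasurable
  refine Eventually.of_forall (fun y => ?_)
  refine (norm_e_le i y).trans (le_abs_self _)

/-- The basis vectors in `L²(ℝ)`. -/
noncomputable def E (i : ℤ × ℤ) : Lp ℂ 2 (volume : Measure ℝ) := (memLp_e i 2).toLp (e i)

lemma E_coe (i : ℤ × ℤ) : E i =ᵐ[volume] e i := (memLp_e i 2).coeFn_toLp

lemma inner_E (i : ℤ × ℤ) (f : Lp ℂ 2 (volume : Measure ℝ)) :
    ⟪E i, f⟫_ℂ = ∫ y in Ioc (i.1 : ℝ) (i.1 + 1),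
      Complex.exp (2 * Real.pi * Complex.I * (-i.2 : ℤ) * y) * f y := by
  rw [L2.inner_def, ← integral_indicator measurableSet_Ioc]
  apply integral_congr_ae
  filter_upwards [E_coe i] with y hy
  rw [hy, RCLike.inner_apply', e]
  by_cases h : y ∈ Ioc (i.1 : ℝ) (i.1 + 1)
  · rw [indicator_of_mem h, indicator_of_mem h, ← Complex.exp_conj]
    congr 2
    simp only [map_mul, Complex.conj_I, Complex.conj_ofReal, map_ofNat, map_intCast]
    push_cast
    ring
  · rw [indicator_of_notMem h, indicator_of_notMem h]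
    simp

lemma norm_inner_E_le (i : ℤ × ℤ) (f : Lp ℂ 2 (volume : Measure ℝ)) :
    ‖⟪E i, f⟫_ℂ‖ ≤ ∫ y in Ioc (i.1 : ℝ) (i.1 + 1), ‖f y‖ := by
  rw [inner_E]
  refine (norm_integral_le_integral_norm _).trans (le_of_eq ?_)
  congr 1
  ext y
  rw [norm_mul, norm_exp, one_mul]

lemma orthonormal_E : Orthonormal ℂ E := by
  rw [orthonormal_iff_ite]
  intro i j
  rw [inner_E]
  by_cases hij1 : i.1 = j.1
  · have h1 : ∫ y in Ioc (i.1 : ℝ) (i.1 + 1),
        Complex.exp (2 * Real.pi * Complex.I * (-i.2 : ℤ) * y) * (E j) y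
        = ∫ y in (i.1 : ℝ)..(i.1 + 1),
          Complex.exp ((2 * Real.pi * Complex.I * ((j.2 - i.2 : ℤ) : ℂ)) * y) := by
      rw [intervalIntegral.integral_of_le (by linarith)]
      apply setIntegral_congr_ae measurableSet_Ioc
      filter_upwards [E_coe j] with y hy hmem
      rw [hy, e, ← hij1, indicator_of_mem hmem, ← Complex.exp_add]
      congr 1
      push_cast
      ring
    rw [h1]
    by_cases hij2 : i.2 = j.2
    · have : i = j := Prod.ext hij1 hij2
      simp [this]
    · have hne : i ≠ j := fun h => hij2 (by rw [h])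
      rw [if_neg hne]
      have hc : (2 * Real.pi * Complex.I * ((j.2 - i.2 : ℤ) : ℂ)) ≠ 0 := by
        have h2 : ((j.2 - i.2 : ℤ) : ℂ) ≠ 0 := by
          rw [Int.cast_ne_zero]
          exact sub_ne_zero.2 (fun h => hij2 h.symm)
        have h3 : (Real.pi : ℂ) ≠ 0 := by exact_mod_cast Real.pi_ne_zero
        exact mul_ne_zero (mul_ne_zero (mul_ne_zero two_ne_zero h3) Complex.I_ne_zero) h2
      rw [integral_exp_mul_complex hc]
      have : (2 * Real.pi * Complex.I * ((j.2 - i.2 : ℤ) : ℂ)) * (((i.1 : ℝ) + 1 : ℝ) : ℂ)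
          = (2 * Real.pi * Complex.I * ((j.2 - i.2 : ℤ) : ℂ)) * ((i.1 : ℝ) : ℂ)
            + ((j.2 - i.2 : ℤ) : ℂ) * (2 * Real.pi * Complex.I) := by
        push_cast; ring
      rw [this, Complex.exp_add, Complex.exp_int_mul_two_pi_mul_I, mul_one, sub_self, zero_div]
  · have hne : i ≠ j := fun h => hij1 (by rw [h])
    rw [if_neg hne]
    rw [← integral_zero ℝ ℂ (μ := volume.restrict (Ioc (i.1 : ℝ) (i.1 + 1)))]
    apply setIntegral_congr_ae measurableSet_Ioc
    filter_upwards [E_coe j] with y hy hmem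
    rw [hy, e, indicator_of_notMem, mul_zero]
    intro hmem2
    apply hij1
    have h1 : (i.1 : ℝ) < j.1 + 1 := hmem.1.trans_le hmem2.2
    have h2 : (j.1 : ℝ) < i.1 + 1 := hmem2.1.trans_le hmem.2
    have h1' : i.1 < j.1 + 1 := by exact_mod_cast h1
    have h2' : j.1 < i.1 + 1 := by exact_mod_cast h2
    omega

lemma eq_zero_of_inner (f : Lp ℂ 2 (volume : Measure ℝ)) (h : ∀ i, ⟪E i, f⟫_ℂ = 0) : f = 0 := by
  have key : ∀ m : ℤ, ∀ᵐ y ∂(volume.restrict (Ioc (m : ℝ) (m + 1))), f y = 0 := by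
    intro m
    have hlt : (m : ℝ) < m + 1 := by linarith
    have hL2 : MemLp f 2 (volume.restrict (Ioc (m : ℝ) (m + 1))) := (Lp.memLp f).restrict _
    have hs := hasSum_sq_fourierCoeffOn hlt hL2
    have hz : ∀ k, fourierCoeffOn hlt f k = 0 := by
      intro k
      rw [fourierCoeffOn_eq_integral]
      have h1 := h (m, k)
      rw [inner_E] at h1
      rw [intervalIntegral.integral_of_le hlt.le]
      have h2 : ∀ x : ℝ, (fourier (-k) (x : AddCircle ((m : ℝ) + 1 - m)) : ℂ)
          = Complex.exp (2 * Real.pi * Complex.I * (-k : ℤ) * x) := by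
        intro x
        rw [fourier_coe_apply]
        congr 1
        have : (((m : ℝ) + 1 - m : ℝ) : ℂ) = 1 := by push_cast; ring
        rw [this, div_one]
      simp_rw [h2, smul_eq_mul]
      simp only at h1
      rw [h1, smul_zero]
    simp_rw [hz] at hs
    have h0 := hs.unique (by simp : HasSum (fun _ : ℤ => ‖(0 : ℂ)‖ ^ 2) 0)
    have h1 : ∫ x in (m : ℝ)..(m + 1), ‖f x‖ ^ 2 = 0 := by
      have : ((m : ℝ) + 1 - m)⁻¹ = 1 := by rw [add_sub_cancel_left, inv_one]
      rw [this, one_smul] at h0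
      exact h0
    rw [intervalIntegral.integral_of_le hlt.le] at h1
    rw [integral_eq_zero_iff_of_nonneg (fun x => by positivity)] at h1
    · filter_upwards [h1] with y hy
      have : ‖f y‖ ^ 2 = 0 := hy
      simpa using this
    · exact hL2.integrable_norm_pow (by norm_num)
  rw [Lp.eq_zero_iff_ae_eq_zero]
  have h2 : ∀ᵐ y ∂(volume.restrict (⋃ m : ℤ, Ioc (m : ℝ) (m + 1))), f y = 0 := by
    rw [ae_restrict_iUnion_iff]
    exact key
  rw [iUnion_Ioc_intCast, Measure.restrict_univ] at h2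
  exact h2

lemma span_orth (v : ℤ × ℤ → Lp ℂ 2 (volume : Measure ℝ)) (hv : ∀ f, (∀ i, ⟪v i, f⟫_ℂ = 0) → f = 0) :
    (Submodule.span ℂ (Set.range v))ᗮ = ⊥ := by
  rw [Submodule.eq_bot_iff]
  intro f hf
  apply hv
  intro i
  exact (Submodule.mem_orthogonal _ _).1 hf _ (Submodule.subset_span ⟨i, rfl⟩)

/-- The Gabor basis. -/
noncomputable def b : HilbertBasis (ℤ × ℤ) ℂ (Lp ℂ 2 (volume : Measure ℝ)) :=
  HilbertBasis.mkOfOrthogonalEqBot orthonormal_E (span_orth E eq_zero_of_inner)

lemma b_apply (i : ℤ × ℤ) : b i = E i := by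
  rw [b, HilbertBasis.coe_mkOfOrthogonalEqBot]

lemma orthonormal_E' : Orthonormal ℂ (fun i : ℤ × ℤ => E i.swap) :=
  orthonormal_E.comp _ Prod.swap_injective

/-- The Gabor basis, with its two indices exchanged. -/
noncomputable def b' : HilbertBasis (ℤ × ℤ) ℂ (Lp ℂ 2 (volume : Measure ℝ)) :=
  HilbertBasis.mkOfOrthogonalEqBot orthonormal_E'
    (span_orth _ (fun f hf => eq_zero_of_inner f (fun i => by simpa using hf i.swap)))

lemma b'_apply (i : ℤ × ℤ) : b' i = E i.swap := by
  rw [b', HilbertBasis.coe_mkOfOrthogonalEqBot]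

/-- The unitary exchanging the indices. -/
noncomputable def U : Lp ℂ 2 (volume : Measure ℝ) ≃ₗᵢ[ℂ] Lp ℂ 2 (volume : Measure ℝ) :=
  b.repr.trans b'.repr.symm

lemma U_E (i : ℤ × ℤ) : U (E i) = E i.swap := by
  classical
  rw [← b_apply, ← b'_apply, U, LinearIsometryEquiv.trans_apply, HilbertBasis.repr_self,
    HilbertBasis.repr_symm_single]

lemma hasSum_pieces (f : Lp ℂ 2 (volume : Measure ℝ)) (hf : Integrable f volume) :
    HasSum (fun m : ℤ => ∫ y in Ioc (m : ℝ) (m + 1), ‖f y‖) (∫ y, ‖f y‖) := by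
  have h := hasSum_integral_iUnion (μ := volume) (f := fun y => ‖f y‖)
    (s := fun m : ℤ => Ioc (m : ℝ) (m + 1)) (fun _ => measurableSet_Ioc)
    (by
      have := pairwise_disjoint_Ioc_intCast ℝ
      exact this) hf.norm.integrableOn
  rw [iUnion_Ioc_intCast, Measure.restrict_univ] at h
  exact h

lemma inner_bound (h f : Lp ℂ 2 (volume : Measure ℝ)) (hh : Integrable h volume)
    (hf : Integrable f volume) : ‖⟪h, U f⟫_ℂ‖ ≤ (∫ y, ‖f y‖) * ∫ y, ‖h y‖ := by
  have hs := HilbertBasis.hasSum_inner_mul_inner b' h (U f)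
  rw [← hs.tsum_eq]
  have hF := hasSum_pieces f hf
  have hH := hasSum_pieces h hh
  have hnF : ∀ m : ℤ, 0 ≤ ∫ y in Ioc (m : ℝ) (m + 1), ‖f y‖ := fun m =>
    integral_nonneg (fun _ => norm_nonneg _)
  have hnH : ∀ m : ℤ, 0 ≤ ∫ y in Ioc (m : ℝ) (m + 1), ‖h y‖ := fun m =>
    integral_nonneg (fun _ => norm_nonneg _)
  have hsum := hF.summable.mul_of_nonneg hH.summable hnF hnH
  apply tsum_of_norm_bounded (hF.mul hH hsum)
  intro i
  rw [norm_mul, mul_comm]
  apply mul_le_mul _ _ (norm_nonneg _) (hnF _)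
  · have h1 : ⟪b' i, U f⟫_ℂ = ⟪E i, f⟫_ℂ := by
      rw [b'_apply, ← U_E, LinearIsometryEquiv.inner_map_map]
    rw [h1]
    exact norm_inner_E_le i f
  · rw [norm_inner_symm, b'_apply]
    exact norm_inner_E_le i.swap h

/-- Duality: a bound of all pairings with `L¹ ∩ L²` gives a pointwise bound. -/
lemma ae_bound (g : Lp ℂ 2 (volume : Measure ℝ)) (M : ℝ)
    (hM : ∀ h : Lp ℂ 2 (volume : Measure ℝ), Integrable h volume →
      ‖⟪h, g⟫_ℂ‖ ≤ M * ∫ y, ‖h y‖) (hM0 : 0 ≤ M) : ∀ᵐ x, ‖g x‖ ≤ M := by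
  have h1 : 0 ≤ᵐ[volume] fun x : ℝ => M - ‖g x‖ := by
    apply ae_nonneg_of_forall_setIntegral_nonneg_of_sigmaFinite
    · intro s hs hμ
      have : IsFiniteMeasure (volume.restrict s) := ⟨by simpa using hμ⟩
      exact (integrable_const M).sub
        (((Lp.memLp g).restrict s).integrable (by norm_num)).norm
    · intro s hs hμ
      have hfin : IsFiniteMeasure (volume.restrict s) := ⟨by simpa using hμ⟩
      have hgi : Integrable g (volume.restrict s) :=
        ((Lp.memLp g).restrict s).integrable (by norm_num)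
      -- test function
      set φ : ℝ → ℂ := indicator s (fun x => g x / ‖g x‖) with hφ
      have hφle : ∀ x, ‖φ x‖ ≤ indicator s (fun _ => (1 : ℝ)) x := by
        intro x
        by_cases hx : x ∈ s
        · rw [hφ, indicator_of_mem hx, indicator_of_mem hx, norm_div, Complex.norm_real,
            Real.norm_eq_abs, abs_norm]
          exact div_self_le_one _
        · rw [hφ, indicator_of_notMem hx, indicator_of_notMem hx, norm_zero]
      have hφm : AEStronglyMeasurable φ volume := by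
        apply AEStronglyMeasurable.indicator _ hs
        have hg := (Lp.aestronglyMeasurable g)
        apply AEMeasurable.aestronglyMeasurable
        exact hg.aemeasurable.div (Complex.measurable_ofReal.comp_aemeasurable hg.norm.aemeasurable)
      have hmem : ∀ p : ℝ≥0∞, MemLp φ p volume := by
        intro p
        have h : MemLp (indicator s (fun _ => (1 : ℝ))) p (volume : Measure ℝ) :=
          memLp_indicator_const _ hs _ (Or.inr hμ.ne)
        apply h.mono hφm
        exact Eventually.of_forall (fun y => (hφle y).trans (le_abs_self _))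
      have hcoe := (hmem 2).coeFn_toLp
      have hint : Integrable ((hmem 2).toLp φ : Lp ℂ 2 volume) volume :=
        ((memLp_one_iff_integrable.1 (hmem 1))).congr hcoe.symm
      have hb := hM _ hint
      have e1 : ⟪((hmem 2).toLp φ : Lp ℂ 2 volume), g⟫_ℂ = ((∫ x in s, ‖g x‖ : ℝ) : ℂ) := by
        rw [L2.inner_def, ← integral_indicator hs, ← integral_complex_ofReal]
        apply integral_congr_ae
        filter_upwards [hcoe] with y hy
        rw [hy, RCLike.inner_apply']
        by_cases hx : y ∈ s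
        · rw [hφ, indicator_of_mem hx, indicator_of_mem hx, map_div₀, Complex.conj_ofReal,
            div_mul_eq_mul_div, mul_comm, Complex.mul_conj, Complex.normSq_eq_norm_sq]
          by_cases h0 : ‖g y‖ = 0
          · simp [h0]
          · have : ((‖g y‖ : ℝ) : ℂ) ≠ 0 := by exact_mod_cast h0
            field_simp
            push_cast
            ring
        · rw [hφ, indicator_of_notMem hx, indicator_of_notMem hx]
          simp
      have e2 : ∫ y, ‖((hmem 2).toLp φ : Lp ℂ 2 volume) y‖ ≤ ∫ y in s, (1 : ℝ) := by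
        rw [← integral_indicator hs]
        apply integral_mono_ae hint.norm
        · rw [integrable_indicator_iff hs]
          exact integrable_const _
        · filter_upwards [hcoe] with y hy
          rw [hy]
          exact hφle y
      rw [e1, Complex.norm_real, Real.norm_eq_abs, abs_of_nonneg
        (integral_nonneg (fun _ => norm_nonneg _))] at hb
      have e3 : ∫ x in s, (M - ‖g x‖) = M * (∫ y in s, (1 : ℝ)) - ∫ x in s, ‖g x‖ := by
        rw [integral_sub (integrable_const M) hgi.norm, ← integral_const_mul]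
        simp
      rw [e3]
      have := mul_le_mul_of_nonneg_left e2 hM0
      linarith
  filter_upwards [h1] with x hx
  have : 0 ≤ M - ‖g x‖ := hx
  linarith

/-- The operator of the counterexample. -/
noncomputable def A : Lp ℂ 2 (volume : Measure ℝ) →L[ℂ] Lp ℂ 2 (volume : Measure ℝ) :=
  (U.toContinuousLinearEquiv : Lp ℂ 2 (volume : Measure ℝ) →L[ℂ] Lp ℂ 2 (volume : Measure ℝ))

lemma A_apply (f : Lp ℂ 2 (volume : Measure ℝ)) : A f = U f := rfl

/-- The adjoint of `A`. -/
noncomputable def B : Lp ℂ 2 (volume : Measure ℝ) →L[ℂ] Lp ℂ 2 (volume : Measure ℝ) :=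
  (U.symm.toContinuousLinearEquiv :
    Lp ℂ 2 (volume : Measure ℝ) →L[ℂ] Lp ℂ 2 (volume : Measure ℝ))

lemma B_apply (f : Lp ℂ 2 (volume : Measure ℝ)) : B f = U.symm f := rfl

lemma inner_eq (f g : Lp ℂ 2 (volume : Measure ℝ)) :
    ∫ x, f x * conj (g x) = ⟪g, f⟫_ℂ := by
  rw [L2.inner_def]
  apply integral_congr_ae
  refine Eventually.of_forall (fun x => ?_)
  simp only [RCLike.inner_apply']
  ring

lemma inner_U_symm (h f : Lp ℂ 2 (volume : Measure ℝ)) : ⟪h, U.symm f⟫_ℂ = ⟪U h, f⟫_ℂ := by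
  rw [← LinearIsometryEquiv.inner_map_map U h (U.symm f), LinearIsometryEquiv.apply_symm_apply]

lemma isSpecialHadamard_A : IsSpecialHadamard 1 A where
  pos := one_pos
  bound := by
    intro f hf
    rw [one_mul]
    exact ae_bound (A f) _ (fun h hh => inner_bound h f hh hf)
      (integral_nonneg (fun _ => norm_nonneg _))
  adjoint := by
    refine ⟨B, ?_, ?_, ?_, 1, ?_⟩
    · intro f g
      rw [fn, fn, fn, fn, inner_eq, inner_eq, app, app, A_apply, B_apply]
      rw [← inner_conj_symm, ← inner_U_symm, inner_conj_symm]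
    · intro f
      have : app A (app B f) = f := U.apply_symm_apply f
      rw [this]
      exact Eventually.of_forall (fun x => by simp)
    · intro f
      have : app B (app A f) = f := U.symm_apply_apply f
      rw [this]
      exact Eventually.of_forall (fun x => by simp)
    · intro f hf
      rw [one_mul]
      refine ae_bound _ _ (fun h hh => ?_) (integral_nonneg (fun _ => norm_nonneg _))
      rw [app, B_apply, inner_U_symm, norm_inner_symm, mul_comm]
      exact inner_bound f h hf hh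

lemma E_zero_ae : E (0, 0) =ᵐ[volume] indicator (Ioc (0 : ℝ) 1) (fun _ => (1 : ℂ)) := by
  filter_upwards [E_coe (0, 0)] with y hy
  rw [hy]
  simp [e]

lemma pnorm_E_zero {p : ℝ} (hp : 0 < p) : pnorm p (E (0, 0)) = 1 := by
  rw [pnorm, fn, eLpNorm_congr_ae E_zero_ae, eLpNorm_indicator_const measurableSet_Ioc]
  · simp
  · simpa using hp
  · simp

lemma memLp_E_zero (p : ℝ≥0∞) : MemLp (E (0, 0)) p volume :=
  (memLp_e (0, 0) p).ae_eq (E_coe (0, 0)).symm

lemma A_E_zero : A (E (0, 0)) = E (0, 0) := by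
  rw [A_apply, U_E]; rfl

lemma E_zero_ne : E (0, 0) ≠ 0 := orthonormal_E.ne_zero _

/-- Every admissible constant is at most `1`. -/
lemma admissible_le {p C : ℝ} (hp : 0 < p) (h : Admissible A p C) : C ≤ 1 := by
  have h1 := h.2 (E (0, 0)) E_zero_ne (memLp_E_zero _)
    (by rw [InLp, app, A_E_zero]; exact memLp_E_zero _)
  rw [app, A_E_zero, pnorm_E_zero hp, pnorm_E_zero (by norm_num)] at h1
  simpa using h1

/-- **A special Hadamard operator on `L²(ℝ)` without any regular choice of admissible constants**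
(dimension `n = 1`, `k = 1`). -/
theorem result : ∃ A : Op (volume : Measure ℝ), IsSpecialHadamard 1 A ∧ ¬ HasRegularChoice A := by
  refine ⟨A, isSpecialHadamard_A, ?_⟩
  rintro ⟨σ, hσ, hσ1, C, hadm, _, hlim, _, hanti⟩
  set p : ℝ := 2 - 2 * σ / 3 with hp
  set q : ℝ := 2 - σ / 3 with hq
  have hpm : p ∈ Ioo (2 - σ) 2 := ⟨by linarith, by linarith⟩
  have hqm : q ∈ Ioo (2 - σ) 2 := ⟨by linarith, by linarith⟩
  have h1 : C q < C p := hanti hpm hqm (by linarith)
  have h2 : C p ≤ 1 := admissible_le (by linarith) (hadm p ⟨hpm.1, hpm.2.le⟩)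
  have h3 : 1 ≤ C q := by
    apply le_of_tendsto hlim
    have : Ioo q 2 ∈ 𝓝[<] (2 : ℝ) := Ioo_mem_nhdsLT hqm.2
    filter_upwards [this] with r hr
    exact (hanti hqm ⟨hqm.1.trans hr.1, hr.2⟩ hr.1).le
  linarith

end Pool.Agent.Results.MP_977787_an.RegularChoiceFails
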